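import Pool.Agent.Y716.C.Smooth

/-!
# The Hasse principle for 100% of the intersections of two quadrics in `ℙ⁵` and in `ℙ⁶`

Let `n = 5` or `n = 6`. Among the smooth complete intersections `q 0 = q 1 = 0` of two quadrics in
`ℙⁿ`, with integral quadratic forms with coefficients bounded by `H`, which have points over the
real numbers and over all the `p`-adic fields, a proportion tending to `1` as `H → ∞` has a rational
point.
-/

set_option autoImplicit false

namespace Pool.Agent.Results.MP_219881_nt.RandomTwoQuadrics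

/-- The pairs of quadratic forms in `n + 1` variables whose coefficients are integers of absolute
value at most `H`. -/
def Pairs (n H : ℕ) : Set (Fin 2 → MvPolynomial (Fin (n + 1)) ℤ) :=
  {q | ∀ j, (q j).IsHomogeneous 2 ∧ ∀ m, |(q j).coeff m| ≤ (H : ℤ)}

/-- The quadratic forms `q 0, q 1` define a smooth complete intersection in `ℙⁿ`: at every common
zero over a field of characteristic zero the Jacobian matrix has rank `2`, that is, no nontrivial
linear combination of the gradients of the two forms vanishes there. -/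
def Smooth {n : ℕ} (q : Fin 2 → MvPolynomial (Fin (n + 1)) ℤ) : Prop :=
  ∀ (K : Type) [Field K] [CharZero K] (x : Fin (n + 1) → K) (l : Fin 2 → K), x ≠ 0 → l ≠ 0 →
    (∀ j, MvPolynomial.aeval x (q j) = 0) →
    ∃ i, ∑ j, l j * MvPolynomial.aeval x (MvPolynomial.pderiv i (q j)) ≠ 0

/-- The intersection `q 0 = q 1 = 0` in `ℙⁿ` has a rational point. -/
def HasRationalPoint {n : ℕ} (q : Fin 2 → MvPolynomial (Fin (n + 1)) ℤ) : Prop :=
  ∃ x : Fin (n + 1) → ℚ, x ≠ 0 ∧ ∀ j, MvPolynomial.aeval x (q j) = 0

/-- The intersection `q 0 = q 1 = 0` in `ℙⁿ` has points over the real numbers and over all the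
`p`-adic fields. -/
def LocallySoluble {n : ℕ} (q : Fin 2 → MvPolynomial (Fin (n + 1)) ℤ) : Prop :=
  (∃ x : Fin (n + 1) → ℝ, x ≠ 0 ∧ ∀ j, MvPolynomial.aeval x (q j) = 0) ∧
    ∀ (p : ℕ) [Fact p.Prime], ∃ x : Fin (n + 1) → ℚ_[p], x ≠ 0 ∧
      ∀ j, MvPolynomial.aeval x (q j) = 0

/-- For `n = 5` and for `n = 6`, 100% of the everywhere locally soluble smooth complete
intersections of two quadrics in `ℙⁿ`, ordered by height, have a rational point. -/
theorem result (n : ℕ) (hn : n = 5 ∨ n = 6) :
    Filter.Tendsto (fun H : ℕ =>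
      (({q | q ∈ Pairs n H ∧ Smooth q ∧ HasRationalPoint q} : Set _).ncard : ℝ) /
      (({q | q ∈ Pairs n H ∧ Smooth q ∧ LocallySoluble q} : Set _).ncard : ℝ))
    Filter.atTop (nhds 1) := by
  exact Pool.Agent.Y716.C.hp_smooth (Fin (n + 1)) (s := 2) (by norm_num)
    (by rw [Fintype.card_fin]; omega) (fun _ => 0) (by rw [Fintype.card_fin]; simp; omega)

end Pool.Agent.Results.MP_219881_nt.RandomTwoQuadrics
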